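import Mathlib

/-!
# Uniformly sharp closed convex sets and polyhedrality

In a real Hilbert space `H`, every nonempty closed convex uniformly sharp set is polyhedral if
and only if `H` is finite-dimensional.  Moreover, in dimension at least two the uniformly sharp
sets are exactly `H` and the singletons.
-/

namespace Pool.Agent.Results.MP_c48ca6_an.UniformSharpness

open Metric Set Filter
open scoped Topology

variable {H : Type*} [NormedAddCommGroup H] [InnerProductSpace ℝ H]

/-- The normal cone of `A` at `x`. -/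
def normalCone (A : Set H) (x : H) : Set H := {v | ∀ a ∈ A, (inner ℝ (a - x) v : ℝ) ≤ 0}

/-- `A` is `α`-sharp with respect to `u`. -/
def Sharp (A : Set H) (u : H) (α : ℝ) : Prop :=
  ∀ x ∈ A, u ∉ normalCone A x → α ≤ infDist u (normalCone A x)

/-- One `α > 0` makes `A` `α`-sharp with respect to every unit vector. -/
def UniformlySharp (A : Set H) : Prop := ∃ α : ℝ, 0 < α ∧ ∀ u : H, ‖u‖ = 1 → Sharp A u α

/-- Polyhedral sets. -/
def Polyhedral (A : Set H) : Prop :=
  ∃ (m : ℕ) (a : Fin m → H) (b : Fin m → ℝ), 1 ≤ m ∧ A = {x | ∀ j, (inner ℝ (a j) x : ℝ) ≤ b j}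

lemma polyhedral_of_fintype {ι : Type*} [Fintype ι] [Nonempty ι] (A : Set H) (a : ι → H)
    (b : ι → ℝ) (h : A = {x | ∀ j, (inner ℝ (a j) x : ℝ) ≤ b j}) : Polyhedral A := by
  classical
  set e := Fintype.equivFin ι
  refine ⟨Fintype.card ι, fun j => a (e.symm j), fun j => b (e.symm j), Fintype.card_pos, ?_⟩
  rw [h]
  ext x
  constructor
  · intro hx j
    exact hx (e.symm j)
  · intro hx j
    have := hx (e j)
    simpa using this

lemma polyhedral_univ : Polyhedral (univ : Set H) := by
  refine ⟨1, fun _ => 0, fun _ => 0, le_rfl, ?_⟩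
  ext x
  simp

lemma polyhedral_singleton [FiniteDimensional ℝ H] (x₀ : H) (hn : 1 ≤ Module.finrank ℝ H) :
    Polyhedral ({x₀} : Set H) := by
  have : Nonempty (Fin (Module.finrank ℝ H)) := ⟨⟨0, by omega⟩⟩
  set e := stdOrthonormalBasis ℝ H
  refine polyhedral_of_fintype (ι := Fin (Module.finrank ℝ H) × Bool) _
    (fun p => if p.2 then e p.1 else - e p.1)
    (fun p => if p.2 then (inner ℝ (e p.1) x₀ : ℝ) else - inner ℝ (e p.1) x₀) ?_
  ext x
  constructor
  · rintro rfl ⟨i, s⟩
    cases s <;> simp
  · intro hx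
    rw [mem_singleton_iff]
    apply e.repr.injective
    ext i
    rw [e.repr_apply_apply, e.repr_apply_apply]
    have h1 := hx (i, true)
    have h2 := hx (i, false)
    simp at h1 h2
    simpa using le_antisymm h1 h2

/-- Locally constant exposed faces. -/
lemma mem_normalCone_of_close {A : Set H} {α : ℝ} (h : ∀ u : H, ‖u‖ = 1 → Sharp A u α)
    {u v : H} (hv : ‖v‖ = 1) (huv : dist u v < α) {x : H} (hx : x ∈ A)
    (hu : u ∈ normalCone A x) : v ∈ normalCone A x := by
  by_contra hcon
  have h1 := h v hv x hx hcon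
  have h2 : infDist v (normalCone A x) ≤ dist v u := infDist_le_dist_of_mem hu
  rw [dist_comm] at h2
  linarith

/-- In dimension at least two, uniformly sharp sets are the whole space or singletons. -/
lemma univ_or_singleton [CompleteSpace H] (hr : 1 < Module.rank ℝ H) {A : Set H}
    (hne : A.Nonempty) (hcl : IsClosed A) (hconv : Convex ℝ A) (hs : UniformlySharp A) :
    A = univ ∨ ∃ x, A = {x} := by
  obtain ⟨α, hα, h⟩ := hs
  by_cases hA : A = univ
  · exact Or.inl hA
  right
  obtain ⟨y, hy⟩ := (ne_univ_iff_exists_notMem A).mp hA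
  obtain ⟨x, hx, hmin⟩ := exists_norm_eq_iInf_of_complete_convex hne hcl.isComplete hconv y
  have hnorm := (norm_eq_iInf_iff_real_inner_le_zero hconv hx).mp hmin
  have hyx : y - x ≠ 0 := by
    intro h0
    rw [sub_eq_zero] at h0
    exact hy (h0 ▸ hx)
  set u₀ : H := (‖y - x‖)⁻¹ • (y - x) with hu₀
  have hu₀n : ‖u₀‖ = 1 := by
    rw [hu₀, norm_smul, norm_inv, norm_norm, inv_mul_cancel₀ (norm_ne_zero_iff.mpr hyx)]
  have hu₀c : u₀ ∈ normalCone A x := by
    intro a ha
    rw [hu₀, inner_smul_right, real_inner_comm]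
    exact mul_nonpos_of_nonneg_of_nonpos (by positivity) (hnorm a ha)
  -- the set of unit vectors in the normal cone is clopen in the sphere
  have : PreconnectedSpace (sphere (0:H) 1) :=
    isPreconnected_iff_preconnectedSpace.mp (isPreconnected_sphere hr 0 1)
  have hclopen : IsClopen {u : sphere (0:H) 1 | (u : H) ∈ normalCone A x} := by
    constructor
    · rw [← isOpen_compl_iff, Metric.isOpen_iff]
      intro u hu
      refine ⟨α, hα, ?_⟩
      intro v hv hvc
      apply hu
      rw [mem_ball] at hv
      exact mem_normalCone_of_close h (mem_sphere_zero_iff_norm.mp u.2) hv hx hvc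
    · rw [Metric.isOpen_iff]
      intro u hu
      refine ⟨α, hα, ?_⟩
      intro v hv
      rw [mem_ball, dist_comm] at hv
      exact mem_normalCone_of_close h (mem_sphere_zero_iff_norm.mp v.2) hv hx hu
  have hall := hclopen.eq_univ ⟨⟨u₀, mem_sphere_zero_iff_norm.mpr hu₀n⟩, hu₀c⟩
  refine ⟨x, ?_⟩
  apply Subset.antisymm
  · intro a ha
    rw [mem_singleton_iff]
    by_contra hax
    have hax' : a - x ≠ 0 := sub_ne_zero.mpr hax
    set w : H := (‖a - x‖)⁻¹ • (a - x) with hw
    have hwn : ‖w‖ = 1 := by
      rw [hw, norm_smul, norm_inv, norm_norm, inv_mul_cancel₀ (norm_ne_zero_iff.mpr hax')]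
    have hwc : (⟨w, mem_sphere_zero_iff_norm.mpr hwn⟩ : sphere (0:H) 1) ∈
        {u : sphere (0:H) 1 | (u : H) ∈ normalCone A x} := by
      rw [hall]; exact mem_univ _
    have h2 : (inner ℝ (a - x) w : ℝ) ≤ 0 := hwc a ha
    rw [hw, inner_smul_right, real_inner_self_eq_norm_sq] at h2
    have h3 : 0 < ‖a - x‖ := norm_pos_iff.mpr hax'
    have h4 : 0 < (‖a - x‖)⁻¹ * ‖a - x‖ ^ 2 := by positivity
    linarith
  · intro a ha
    rw [mem_singleton_iff] at ha
    rw [ha]
    exact hx

/-- Closed convex subsets of a line are polyhedral. -/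
lemma polyhedral_line (hr : Module.finrank ℝ H = 1) {A : Set H}
    (hne : A.Nonempty) (hcl : IsClosed A) (hconv : Convex ℝ A) : Polyhedral A := by
  classical
  obtain ⟨v, hv0, hv⟩ := finrank_eq_one_iff'.mp hr
  set e : H := (‖v‖)⁻¹ • v with he
  have hen : ‖e‖ = 1 := by
    rw [he, norm_smul, norm_inv, norm_norm, inv_mul_cancel₀ (norm_ne_zero_iff.mpr hv0)]
  have hex : ∀ x : H, x = (inner ℝ e x : ℝ) • e := by
    intro x
    obtain ⟨c, hc⟩ := hv x
    have h1 : x = (c * ‖v‖) • e := by
      rw [he, smul_smul, mul_assoc, mul_inv_cancel₀ (norm_ne_zero_iff.mpr hv0), mul_one, hc]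
    have h2 : (inner ℝ e x : ℝ) = c * ‖v‖ := by
      rw [h1, inner_smul_right, real_inner_self_eq_norm_sq, hen]
      ring
    rw [h2]
    exact h1
  set I : Set ℝ := {c | c • e ∈ A} with hI
  have hIA : ∀ x, x ∈ A ↔ (inner ℝ e x : ℝ) ∈ I := by
    intro x
    rw [hI, mem_ofPred_eq, ← hex x]
  have hIne : I.Nonempty := by
    obtain ⟨x, hx⟩ := hne
    exact ⟨_, (hIA x).mp hx⟩
  have hIcl : IsClosed I := hcl.preimage (by fun_prop)
  have hIconv : Convex ℝ I := by
    intro s hs t ht a b ha hb hab
    have h1 : (a • s + b • t) • e = a • (s • e) + b • (t • e) := by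
      simp only [smul_eq_mul]
      module
    change (a • s + b • t) • e ∈ A
    rw [h1]
    exact hconv hs ht ha hb hab
  have hord : I.OrdConnected := hIconv.ordConnected
  refine polyhedral_of_fintype (ι := Bool) _
    (fun s => if s then (if BddAbove I then e else 0) else (if BddBelow I then -e else 0))
    (fun s => if s then (if BddAbove I then sSup I else 0) else
      (if BddBelow I then -sInf I else 0)) ?_
  ext x
  rw [hIA x]
  set t : ℝ := inner ℝ e x with ht
  constructor
  · intro hx s
    cases s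
    · by_cases hb : BddBelow I
      · simp [hb, ← ht, csInf_le hb hx]
      · simp [hb]
    · by_cases ha : BddAbove I
      · simp [ha, ← ht, le_csSup ha hx]
      · simp [ha]
  · intro hx
    have h1 := hx true
    have h2 := hx false
    have hup : ∃ s ∈ I, t ≤ s := by
      by_cases ha : BddAbove I
      · refine ⟨sSup I, hIcl.csSup_mem hIne ha, ?_⟩
        simp [ha] at h1
        exact h1
      · rw [not_bddAbove_iff] at ha
        obtain ⟨s, hs, hts⟩ := ha t
        exact ⟨s, hs, hts.le⟩
    have hlo : ∃ s ∈ I, s ≤ t := by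
      by_cases hb : BddBelow I
      · refine ⟨sInf I, hIcl.csInf_mem hIne hb, ?_⟩
        simp [hb] at h2
        exact h2
      · rw [not_bddBelow_iff] at hb
        obtain ⟨s, hs, hts⟩ := hb t
        exact ⟨s, hs, hts.le⟩
    obtain ⟨s, hs, hts⟩ := hup
    obtain ⟨r, hr, hrt⟩ := hlo
    exact hord.out hr hs ⟨hrt, hts⟩

lemma singleton_uniformlySharp (x : H) : UniformlySharp ({x} : Set H) := by
  refine ⟨1, one_pos, ?_⟩
  intro u _ y hy hcon
  exfalso
  apply hcon
  intro a ha
  rw [mem_singleton_iff] at hy ha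
  rw [hy, ha, sub_self, inner_zero_left]

lemma not_polyhedral_singleton [CompleteSpace H] (hinf : ¬ FiniteDimensional ℝ H) :
    ¬ Polyhedral ({0} : Set H) := by
  rintro ⟨m, a, b, _, h⟩
  set K : Submodule ℝ H := Submodule.span ℝ (range a) with hK
  have : FiniteDimensional ℝ K := FiniteDimensional.span_of_finite ℝ (finite_range a)
  have hbot : Kᗮ ≠ ⊥ := by
    intro hbot
    rw [Submodule.orthogonal_eq_bot_iff] at hbot
    apply hinf
    rw [hbot] at this
    exact Module.finite_def.mpr (Module.finite_def.mp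
      (Module.Finite.equiv (Submodule.topEquiv : (⊤ : Submodule ℝ H) ≃ₗ[ℝ] H)))
  obtain ⟨x, hx, hx0⟩ := Submodule.exists_mem_ne_zero_of_ne_bot hbot
  have h0 : (0 : H) ∈ {x | ∀ j, (inner ℝ (a j) x : ℝ) ≤ b j} := by
    rw [← h]; exact mem_singleton 0
  have hx1 : x ∈ {x | ∀ j, (inner ℝ (a j) x : ℝ) ≤ b j} := by
    intro j
    have h1 : (inner ℝ (a j) x : ℝ) = 0 :=
      (Submodule.mem_orthogonal K x).mp hx (a j) (Submodule.subset_span ⟨j, rfl⟩)
    have h2 := h0 j
    rw [inner_zero_right] at h2
    rw [h1]
    exact h2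
  rw [← h, mem_singleton_iff] at hx1
  exact hx0 hx1

/-- **In a real Hilbert space `H`, every nonempty closed convex uniformly sharp set is polyhedral
if and only if `H` is finite-dimensional.** -/
theorem result (H : Type*) [NormedAddCommGroup H] [InnerProductSpace ℝ H] [CompleteSpace H] :
    (∀ A : Set H, A.Nonempty → IsClosed A → Convex ℝ A → UniformlySharp A → Polyhedral A) ↔
      FiniteDimensional ℝ H := by
  constructor
  · intro h
    by_contra hinf
    exact not_polyhedral_singleton hinf
      (h {0} (singleton_nonempty 0) isClosed_singleton (convex_singleton 0)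
        (singleton_uniformlySharp 0))
  · intro hfin A hne hcl hconv hs
    rcases Nat.lt_or_ge 1 (Module.finrank ℝ H) with h2 | h2
    · have hr : 1 < Module.rank ℝ H := by
        rw [← Module.finrank_eq_rank]
        exact_mod_cast h2
      rcases univ_or_singleton hr hne hcl hconv hs with h | ⟨x, h⟩
      · rw [h]
        exact polyhedral_univ
      · rw [h]
        exact polyhedral_singleton x h2.le
    · interval_cases hf : Module.finrank ℝ H
      · have : Subsingleton H := Module.finrank_zero_iff.mp hf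
        have hA : A = univ := by
          obtain ⟨x, hx⟩ := hne
          ext y
          simp only [mem_univ, iff_true]
          rw [Subsingleton.elim y x]
          exact hx
        rw [hA]
        exact polyhedral_univ
      · exact polyhedral_line hf hne hcl hconv

end Pool.Agent.Results.MP_c48ca6_an.UniformSharpness
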